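import Pool.Agent.helper70.RK.Spec

/-!
# Project rk (MP_e82547_al), row BY1: no nontrivial normal p-subgroup in the centraliser of `S`
-/

namespace RK

open QS (Lef EAb)
open LEQ (Stb Nz XS Ls Mb FS mem_FS)

private lemma BY1_simple {G : Type} [Group G] [Finite G] {p : ℕ} (hp : p.Prime) {K Q : Subgroup G}
    (hK : NS K) (hQK : Q ≤ K) (hn : ∀ k ∈ K, ∀ x ∈ Q, k * x * k⁻¹ ∈ Q) (hQ : IsPGroup p Q) :
    Q = ⊥ := by
  obtain ⟨hs, x, hx, y, hy, hxy⟩ := hK
  have hf : Fact p.Prime := ⟨hp⟩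
  have hN : (Q.subgroupOf K).Normal := by
    refine ⟨fun n hn' g => ?_⟩
    rw [Subgroup.mem_subgroupOf] at hn' ⊢
    exact hn g g.2 n hn'
  rcases hs.eq_bot_or_eq_top_of_normal _ hN with h | h
  · rw [Subgroup.subgroupOf_eq_bot] at h
    rw [← inf_eq_left.mpr hQK]
    exact disjoint_iff.mp h
  · exfalso
    have hKQ : K ≤ Q := Subgroup.subgroupOf_eq_top.mp h
    have hKp : IsPGroup p K := hQ.to_le hKQ
    have hnt : Nontrivial K := hs.toNontrivial
    have hc : Nontrivial (Subgroup.center K) := hKp.center_nontrivial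
    have hct : Subgroup.center K = ⊤ := by
      rcases hs.eq_bot_or_eq_top_of_normal (Subgroup.center K) inferInstance with h1 | h1
      · exact absurd h1 ((Subgroup.nontrivial_iff_ne_bot _).mp hc)
      · exact h1
    have hm : (⟨x, hx⟩ : K) ∈ Subgroup.center K := by rw [hct]; exact Subgroup.mem_top _
    rw [Subgroup.mem_center_iff] at hm
    have h2 := congrArg Subtype.val (hm ⟨y, hy⟩)
    exact hxy h2.symm

private lemma BY1_comm {G : Type} [Group G] {t k : G} (h : t * k * t⁻¹ * k⁻¹ = 1) : k * t = t * k := by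
  have h1 : t * k * t⁻¹ = k := mul_inv_eq_one.mp h
  exact (mul_inv_eq_iff_eq_mul.mp h1).symm

theorem BY1 (hOPN : OPN_stmt) (hFCM : FCM_stmt) : BY1_stmt := by
  intro G _ _ p hp N S Y D hB
  obtain ⟨hop, hoq, hfm, hey, hed, hyn⟩ := hB
  obtain ⟨fc1, fc2, fc3⟩ := hFCM G N S hfm
  have hNn : N.Normal := hfm.nn
  have hSC : IsC S S := ⟨1, by
    ext x
    rw [mem_Cj]
    simp⟩
  set B : Subgroup G := Subgroup.centralizer (N : Set G) with hBdef
  have hBn : B.Normal := by
    refine ⟨fun b hb g => ?_⟩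
    rw [hBdef, Subgroup.mem_centralizer_iff] at hb ⊢
    intro n hn
    have h1 : g⁻¹ * n * g ∈ N := by
      have := hNn.conj_mem n hn g⁻¹
      rwa [inv_inv] at this
    have h2 := hb _ h1
    calc n * (g * b * g⁻¹) = g * (g⁻¹ * n * g * b) * g⁻¹ := by group
      _ = g * (b * (g⁻¹ * n * g)) * g⁻¹ := by rw [h2]
      _ = g * b * g⁻¹ * n := by group
  have hBY : B ≤ Y := by
    rw [hey, hBdef]
    exact Subgroup.centralizer_le hfm.le
  have hopB : OpS p B := hOPN G p hp hop B hBn
  -- the conjugates different from S are in Y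
  have hKY : ∀ K : Subgroup G, IsC S K → K ≠ S → K ≤ Y := by
    intro K hK hne k hk
    rw [hey, Subgroup.mem_centralizer_iff]
    intro s hs
    exact (fc1 S K hSC hK hne.symm).1 s hs k hk
  intro T hTY hTn hTp
  -- an element of Y which commutes with all K other than S is in B
  have hmemB : ∀ t ∈ Y, (∀ K : Subgroup G, IsC S K → K ≠ S → Com K t) → t ∈ B := by
    intro t ht h
    have h1 : Com N t := by
      apply fc3
      intro K hK
      by_cases hne : K = S
      · intro y hy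
        rw [hey, Subgroup.mem_centralizer_iff] at ht
        rw [hne] at hy
        exact ht y hy
      · exact h K hK hne
    rw [hBdef, Subgroup.mem_centralizer_iff]
    intro n hn
    exact h1 n hn
  -- T ⊓ N = ⊥
  have hT0 : T ⊓ N = ⊥ := by
    apply hopB (T ⊓ N)
    · intro t ht
      obtain ⟨htT, htN⟩ := Subgroup.mem_inf.mp ht
      apply hmemB t (hTY htT)
      intro K hK hne k hk
      have hKle : K ≤ Y := hKY K hK hne
      obtain ⟨hns, hKN, hst, _, _, _⟩ := fc2 K hK
      have hbot : T ⊓ N ⊓ K = ⊥ := by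
        refine BY1_simple hp hns inf_le_right ?_ ?_
        · intro a ha x hx
          obtain ⟨hx1, hx2⟩ := Subgroup.mem_inf.mp hx
          obtain ⟨hx3, hx4⟩ := Subgroup.mem_inf.mp hx1
          exact Subgroup.mem_inf.mpr ⟨Subgroup.mem_inf.mpr ⟨hTn a (hKle ha) x hx3,
            hNn.conj_mem x hx4 a⟩, K.mul_mem (K.mul_mem ha hx2) (K.inv_mem ha)⟩
        · exact hTp.to_le (le_trans inf_le_left inf_le_left)
      apply BY1_comm
      have hm : t * k * t⁻¹ * k⁻¹ ∈ T ⊓ N ⊓ K := by
        refine Subgroup.mem_inf.mpr ⟨Subgroup.mem_inf.mpr ⟨?_, ?_⟩, ?_⟩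
        · have h1 : k * t⁻¹ * k⁻¹ ∈ T := hTn k (hKle hk) _ (T.inv_mem htT)
          have h2 : t * k * t⁻¹ * k⁻¹ = t * (k * t⁻¹ * k⁻¹) := by group
          rw [h2]
          exact T.mul_mem htT h1
        · exact N.mul_mem (N.mul_mem (N.mul_mem htN (hKN hk)) (N.inv_mem htN)) (N.inv_mem (hKN hk))
        · refine K.mul_mem ?_ (K.inv_mem hk)
          rw [← hst t htN, mem_Cj]
          have h2 : t⁻¹ * (t * k * t⁻¹) * t = k := by group
          rw [h2]
          exact hk
      rw [hbot] at hm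
      exact Subgroup.mem_bot.mp hm
    · intro b hb x hx
      obtain ⟨_, hxN⟩ := Subgroup.mem_inf.mp hx
      rw [hBdef, Subgroup.mem_centralizer_iff] at hb
      have h1 : b * x * b⁻¹ = x := by
        rw [← hb x hxN]
        group
      rw [h1]
      exact hx
    · exact hTp.to_le inf_le_left
  -- T = ⊥
  apply hopB T
  · intro t ht
    apply hmemB t (hTY ht)
    intro K hK hne k hk
    have hKle : K ≤ Y := hKY K hK hne
    obtain ⟨_, hKN, _, _, _, _⟩ := fc2 K hK
    apply BY1_comm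
    have hm : t * k * t⁻¹ * k⁻¹ ∈ T ⊓ N := by
      refine Subgroup.mem_inf.mpr ⟨?_, ?_⟩
      · have h1 : k * t⁻¹ * k⁻¹ ∈ T := hTn k (hKle hk) _ (T.inv_mem ht)
        have h2 : t * k * t⁻¹ * k⁻¹ = t * (k * t⁻¹ * k⁻¹) := by group
        rw [h2]
        exact T.mul_mem ht h1
      · exact N.mul_mem (hNn.conj_mem k (hKN hk) t) (N.inv_mem (hKN hk))
    rw [hT0] at hm
    exact Subgroup.mem_bot.mp hm
  · intro b hb x hx
    exact hTn b (hBY hb) x hx
  · exact hTp

end RK
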